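import Pool.Agent.H7.HD.Targets8

/-!
# (P2) a partition in HOD from disjoint stationary sets
-/

open Ordinal Cardinal Order Set
open scoped ZFSet

universe u

namespace Pool.Agent.H23.HD.P2

open _root_.HD

/-- the family of the sections of a definable relation is in HOD -/
theorem hod_fam {R : Ordinal.{u} → Ordinal.{u} → Prop} (hR : DR R) (κ β : Ordinal.{u}) :
    HOD (gr (fun i => os β {b | R b i}) κ) := by
  refine hod_iff.2 ⟨?_, fun y hy => ?_⟩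
  · obtain ⟨Q, hQ, hQ'⟩ := hR
    refine OD.of_mem (P := fun v => ∃ x ∈ κ.toZFSet, ∃ u, v 0 = ZFSet.pair x u ∧
      ∀ z, z ∈ u ↔ z ∈ β.toZFSet ∧ Q (cons z fun _ => x)) ?_ fun v => ?_
    · refine DZ.od (R := fun a v => ∃ x ∈ a, ∃ u, v 0 = ZFSet.pair x u ∧
        ∀ z, z ∈ u ↔ z ∈ β.toZFSet ∧ Q (cons z fun _ => x)) (OD.ordinal κ) (DZ.exMem 0 ?_)
      refine DZ.ex (R := fun u v => v 2 = ZFSet.pair (v 0) u ∧
        ∀ z, z ∈ u ↔ z ∈ β.toZFSet ∧ Q (cons z fun _ => v 0)) ?_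
      refine DZ.and (loc_pair 3 1 0).dz ?_
      refine DZ.all (R := fun z v => z ∈ v 0 ↔ z ∈ β.toZFSet ∧ Q (cons z fun _ => v 1)) ?_
      refine (DZ.mem 0 1).iff (DZ.and
        (DZ.od (R := fun b v => v 0 ∈ b) (OD.ordinal β) (DZ.mem 1 0)) ?_)
      refine (hQ.ren (fun n => if n = 0 then 0 else 2)).congr fun v => ?_
      have : (cons (v 0) fun _ => v 2) = fun n => v (if n = 0 then 0 else 2) := by
        funext n
        rcases n with _ | n <;> simp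
      show Q (cons (v 0) fun _ => v 2) ↔ _
      rw [this]
    · have e : ∀ a b : Ordinal.{u}, (cons a.toZFSet fun _ => b.toZFSet) =
          ov (cns a fun _ => b) := by
        intro a b
        rw [ov_cns]
        rfl
      have key : ∀ i : Ordinal.{u}, ∀ z, z ∈ os β {b | R b i} ↔
          z ∈ β.toZFSet ∧ Q (cons z fun _ => i.toZFSet) := by
        intro i z
        rw [mem_os]
        constructor
        · rintro ⟨a, ha, h1, rfl⟩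
          refine ⟨toZFSet_mem_toZFSet_iff.2 ha, ?_⟩
          rw [e]
          exact (hQ' (cns a fun _ => i)).1 h1
        · rintro ⟨h1, h2⟩
          obtain ⟨a, ha, rfl⟩ := mem_toZFSet_iff.1 h1
          rw [e] at h2
          exact ⟨a, ha, (hQ' (cns a fun _ => i)).2 h2, rfl⟩
      rw [mem_gr]
      constructor
      · rintro ⟨x, hx, u, hv, hu⟩
        obtain ⟨a, ha, rfl⟩ := mem_toZFSet_iff.1 hx
        refine ⟨a, ha, ?_⟩
        rw [hv]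
        congr 1
        ext z
        rw [hu, key]
      · rintro ⟨a, ha, hv⟩
        exact ⟨a.toZFSet, toZFSet_mem_toZFSet_iff.2 ha, _, hv, fun z => key a z⟩
  · obtain ⟨b, -, rfl⟩ := mem_gr.1 hy
    refine (HOD.ordinal b).pair (hod_os ?_ β)
    exact DO.sub (R := fun x w => R (w 0) x) b (DO.s2 (X := fun a c => R a c) hR 1 0)

theorem X : T_P2.{u} := by
  intro K κ hK hK0 hκ hns
  set w : Ordinal.{u} := (ℵ₀ : Cardinal.{u}).ord with hw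
  unfold NS at hns
  push Not at hns
  obtain ⟨s, hs, huniq, hpos⟩ := hns
  let R : Ordinal.{u} → Ordinal.{u} → Prop := fun b i =>
    Cf w b ∧ ((0 < i ∧ s b i) ∨ (i = 0 ∧ ¬ ∃ i' < κ, 0 < i' ∧ s b i'))
  have hR : DR R := by
    refine DO.and ?_ (DO.or (DO.and (DO.gtc 1 0) hs) (DO.and (DO.eqc 1 0) (DO.not ?_)))
    · exact (DO.sub (R := fun x v => Cf x (v 0)) w (do_Cf All.la 0 1))
    · refine DO.exLtc (R := fun i v => 0 < i ∧ s (v 0) i) κ (DO.and (DO.gtc 0 0) ?_)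
      exact DO.s2 (X := fun a c => s a c) hs 1 0
  set F := gr (fun i => os K.ord {b | R b i}) κ with hF
  have hcf : ∀ b : Ordinal.{u}, Cf w b ↔ b.cof = ℵ₀ := fun b =>
    ⟨fun h => Cardinal.ord_injective h, fun h => by unfold Cf; rw [h]⟩
  refine ⟨F, ZFSet.range (fun b : Iio κ => os K.ord {c | R c b.1}), hod_fam hR κ K.ord,
    ⟨fun p hp => ?_, fun z hz => ?_⟩, ?_, ?_, ?_, ?_⟩
  · obtain ⟨b, hb, rfl⟩ := mem_gr.1 hp
    refine ZFSet.pair_mem_prod.2 ⟨toZFSet_mem_toZFSet_iff.2 hb, ?_⟩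
    rw [ZFSet.mem_range]
    exact ⟨⟨b, hb⟩, rfl⟩
  · obtain ⟨a, ha, rfl⟩ := mem_toZFSet_iff.1 hz
    exact ⟨_, pair_mem_gr.2 ⟨ha, rfl⟩, fun w hw => (pair_mem_gr.1 hw).2⟩
  · intro i hi S hS C hC
    obtain ⟨-, rfl⟩ := pair_mem_gr.1 hS
    obtain ⟨b, hb, hbC, hbs, hbw⟩ := hpos i hi C hC
    refine ⟨b, hb, hbC, ord_mem_os.2 ⟨hb, hbw, ?_⟩⟩
    rcases eq_or_ne i 0 with rfl | h0
    · refine Or.inr ⟨rfl, ?_⟩
      rintro ⟨i', -, hi'0, hi's⟩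
      exact hi'0.ne (huniq b _ _ hbs hi's)
    · exact Or.inl ⟨pos_iff_ne_zero.2 h0, hbs⟩
  · intro i hi S hS z hz
    obtain ⟨-, rfl⟩ := pair_mem_gr.1 hS
    obtain ⟨b, hb, hbR, rfl⟩ := mem_os.1 hz
    exact ⟨b, hb, rfl, (hcf b).1 hbR.1⟩
  · intro b hb hbc
    by_cases h : ∃ i' < κ, 0 < i' ∧ s b i'
    · obtain ⟨i, hi, hi0, his⟩ := h
      exact ⟨i, hi, _, pair_mem_gr.2 ⟨hi, rfl⟩,
        ord_mem_os.2 ⟨hb, (hcf b).2 hbc, Or.inl ⟨hi0, his⟩⟩⟩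
    · exact ⟨0, hκ, _, pair_mem_gr.2 ⟨hκ, rfl⟩,
        ord_mem_os.2 ⟨hb, (hcf b).2 hbc, Or.inr ⟨rfl, h⟩⟩⟩
  · intro i hi i' hi' S S' hS hS' hne z hz hz'
    obtain ⟨-, rfl⟩ := pair_mem_gr.1 hS
    obtain ⟨-, rfl⟩ := pair_mem_gr.1 hS'
    obtain ⟨b, hb, ⟨-, hbR⟩, rfl⟩ := mem_os.1 hz
    obtain ⟨-, -, hbR'⟩ := ord_mem_os.1 hz'
    rcases hbR with ⟨h0, h1⟩ | ⟨h0, h1⟩ <;> rcases hbR' with ⟨h0', h1'⟩ | ⟨h0', h1'⟩
    · exact hne (huniq b _ _ h1 h1')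
    · exact h1' ⟨i, hi, h0, h1⟩
    · exact h1 ⟨i', hi', h0', h1'⟩
    · exact hne (h0.trans h0'.symm)

end Pool.Agent.H23.HD.P2
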